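import Mathlib

set_option autoImplicit false

namespace Pool.Agent.Results.MP_085289_co.CubeFreeMedian

variable {V : Type}

/-- `k` lazy cops have a winning strategy on `G`: word for word the inner statement of S07033. -/
def LazyCopsWin (G : SimpleGraph V) (k : ℕ) : Prop :=
  ∃ c₀ : Fin k → V, ∀ S : Set ((Fin k → V) × V),
    (∀ (c : Fin k → V) (r : V),
      (∃ c' : Fin k → V,
          (∀ i, c' i = c i ∨ G.Adj (c i) (c' i)) ∧
          (∃ i, ∀ j, j ≠ i → c' j = c j) ∧
          ((∃ i, c' i = r) ∨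
            ∀ r' : V, (r' = r ∨ G.Adj r r') → (∃ i, c' i = r') ∨ (c', r') ∈ S)) →
      (c, r) ∈ S) →
    ∀ r : V, (∃ i, c₀ i = r) ∨ (c₀, r) ∈ S

/-- Modular graph: every three vertices have at least one median. -/
def IsModular (G : SimpleGraph V) : Prop :=
  ∀ a b c : V, ∃ m : V,
    G.dist a m + G.dist m b = G.dist a b ∧ G.dist b m + G.dist m c = G.dist b c ∧
      G.dist a m + G.dist m c = G.dist a c

/-- The 3-cube. -/
def cube3 : SimpleGraph ((Bool × Bool) × Bool) :=
  ((⊤ : SimpleGraph Bool).boxProd (⊤ : SimpleGraph Bool)).boxProd (⊤ : SimpleGraph Bool)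

/-! ### The game on a set of vertices -/

def Closed (G : SimpleGraph V) (k : ℕ) (A : Set V) (S : Set ((Fin k → V) × V)) : Prop :=
  ∀ (c : Fin k → V) (r : V), (∀ i, c i ∈ A) → r ∈ A →
    (∃ c' : Fin k → V, (∀ i, c' i ∈ A) ∧
      (∀ i, c' i = c i ∨ G.Adj (c i) (c' i)) ∧
      (∃ i, ∀ j, j ≠ i → c' j = c j) ∧
      ((∃ i, c' i = r) ∨
        ∀ r', r' ∈ A → (r' = r ∨ G.Adj r r') → (∃ i, c' i = r') ∨ (c', r') ∈ S)) →
    (c, r) ∈ S

def WinOn (G : SimpleGraph V) (k : ℕ) (A : Set V) : Prop :=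
  ∃ c₀ : Fin k → V, (∀ i, c₀ i ∈ A) ∧
    ∀ S, Closed G k A S → ∀ r ∈ A, (∃ i, c₀ i = r) ∨ (c₀, r) ∈ S

theorem winOn_univ (G : SimpleGraph V) (k : ℕ) (h : WinOn G k Set.univ) : LazyCopsWin G k := by
  obtain ⟨c₀, -, h⟩ := h
  refine ⟨c₀, fun S hS r => ?_⟩
  refine h S ?_ r (Set.mem_univ _)
  intro c r _ _ ⟨c', _, h1, h2, h3⟩
  refine hS c r ⟨c', h1, h2, ?_⟩
  rcases h3 with h3 | h3
  · exact Or.inl h3
  · exact Or.inr fun r' hr' => h3 r' (Set.mem_univ _) hr'

theorem upd_mem {k : ℕ} {A : Set V} {c : Fin k → V} (hc : ∀ i, c i ∈ A) (i : Fin k) {v : V}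
    (hv : v ∈ A) : ∀ l, Function.update c i v l ∈ A := by
  classical
  intro l
  by_cases hl : l = i
  · subst hl; simpa using hv
  · rw [Function.update_of_ne hl]; exact hc l

theorem upd_move (G : SimpleGraph V) {k : ℕ} {c : Fin k → V} (i : Fin k) {v : V}
    (hv : v = c i ∨ G.Adj (c i) v) :
    (∀ l, Function.update c i v l = c l ∨ G.Adj (c l) (Function.update c i v l)) := by
  classical
  intro l
  by_cases hl : l = i
  · subst hl; simpa using hv
  · left; rw [Function.update_of_ne hl]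

theorem upd_one {k : ℕ} (c : Fin k → V) (i : Fin k) (v : V) :
    ∃ i', ∀ j, j ≠ i' → Function.update c i v j = c j :=
  ⟨i, fun _ hl => Function.update_of_ne hl _ _⟩

theorem capture (G : SimpleGraph V) {k : ℕ} {A : Set V} {S : Set ((Fin k → V) × V)}
    (hS : Closed G k A S) (c : Fin k → V) (r : V) (hc : ∀ i, c i ∈ A) (hr : r ∈ A)
    (h : ∃ i, c i = r ∨ G.Adj (c i) r) : (c, r) ∈ S := by
  obtain ⟨i, h⟩ := h
  refine hS c r hc hr ⟨Function.update c i r, upd_mem hc i hr, upd_move G i ?_, upd_one c i r,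
    Or.inl ⟨i, by simp⟩⟩
  rcases h with h | h
  · exact Or.inl h.symm
  · exact Or.inr h

/-- Removing a vertex whose neighbours are dominated by another vertex `w`. -/
theorem step (G : SimpleGraph V) (k : ℕ) (A : Set V) (x w : V) (hk : 2 ≤ k ∨ G.Adj w x)
    (hx : x ∈ A) (hw : w ∈ A) (hne : w ≠ x)
    (hN : ∀ y ∈ A, G.Adj x y → y = w ∨ G.Adj w y) (e : V → ℕ)
    (he : ∀ v ∈ A, v ≠ x → ∃ v' ∈ A, G.Adj v v' ∧ e v' < e v)
    (h : WinOn G k (A \ {x})) : WinOn G k A := by
  classical
  obtain ⟨c₀, hc₀, hwin⟩ := h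
  refine ⟨c₀, fun i => (hc₀ i).1, fun S hS r hr => ?_⟩
  -- a cop on `w`, the robber on `x`
  have B : ∀ n, ∀ c : Fin k → V, ∀ i j, j ≠ i → (∀ l, c l ∈ A) → c i = w → e (c j) = n →
      (c, x) ∈ S := by
    intro n
    induction n using Nat.strong_induction_on with
    | _ n ih =>
      intro c i j hij hc hci hej
      by_cases hD : c j = x
      · exact capture G hS c x hc hx ⟨j, Or.inl hD⟩
      · obtain ⟨v', hv', hadj, hlt⟩ := he (c j) (hc j) hD
        have hc' := upd_mem hc j hv'
        have hi' : Function.update c j v' i = w := by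
          rw [Function.update_of_ne (Ne.symm hij)]; exact hci
        refine hS c x hc hx ⟨Function.update c j v', hc', upd_move G j (Or.inr hadj),
          upd_one c j v', Or.inr ?_⟩
        intro r' hr' hmove
        rcases hmove with rfl | hadj'
        · right
          exact ih (e v') (hej ▸ hlt) (Function.update c j v') i j hij hc' hi' (by simp)
        · rcases hN r' hr' hadj' with rfl | hw'
          · left; exact ⟨i, hi'⟩
          · right
            exact capture G hS _ r' hc' hr' ⟨i, Or.inr (by rw [hi']; exact hw')⟩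
  have B0 : ∀ (c : Fin k → V) (i : Fin k), (∀ l, c l ∈ A) → c i = w → (c, x) ∈ S := by
    intro c i hc hci
    rcases hk with hk | hk
    · have : Nontrivial (Fin k) := Fin.nontrivial_iff_two_le.mpr hk
      obtain ⟨j, hj⟩ := exists_ne i
      exact B _ c i j hj hc hci rfl
    · exact capture G hS c x hc hx ⟨i, Or.inr (by rw [hci]; exact hk)⟩
  let f : V → V := fun r => if r = x then w else r
  have fx : f x = w := by simp [f]
  have fne : ∀ r, r ≠ x → f r = r := fun r hr => by simp [f, hr]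
  have fmem : ∀ r ∈ A, f r ∈ A \ {x} := by
    intro r hr
    by_cases hrx : r = x
    · rw [hrx, fx]; exact ⟨hw, hne⟩
    · rw [fne r hrx]; exact ⟨hr, hrx⟩
  have F : ∀ r ∈ A, ∀ r' ∈ A, (r' = r ∨ G.Adj r r') → f r' = f r ∨ G.Adj (f r) (f r') := by
    intro r hr r' hr' hmove
    rcases hmove with rfl | hadj
    · exact Or.inl rfl
    · by_cases hrx : r = x
      · have hr'x : r' ≠ x := fun h => by
          rw [hrx, h] at hadj; exact G.loopless.irrefl _ hadj
        rw [hrx, fx, fne r' hr'x]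
        rw [hrx] at hadj
        exact hN r' hr' hadj
      · by_cases hr'x : r' = x
        · rw [hr'x, fx, fne r hrx]
          rw [hr'x] at hadj
          rcases hN r hr hadj.symm with h | h
          · exact Or.inl h.symm
          · exact Or.inr h.symm
        · rw [fne r hrx, fne r' hr'x]; exact Or.inr hadj
  -- a cop on or next to the shadow
  have B' : ∀ (c : Fin k → V) (r : V), (∀ l, c l ∈ A) → r ∈ A →
      (∃ i, c i = f r ∨ G.Adj (c i) (f r)) → (c, r) ∈ S := by
    intro c r hc hr ⟨i, hi⟩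
    by_cases hrx : r = x
    · subst hrx
      rw [fx] at hi
      rcases hi with hi | hi
      · exact B0 c i hc hi
      · have hc' := upd_mem hc i hw
        have hi' : Function.update c i w i = w := by simp
        refine hS c r hc hr ⟨Function.update c i w, hc', upd_move G i (Or.inr hi),
          upd_one c i w, Or.inr ?_⟩
        intro r' hr' hmove
        rcases hmove with rfl | hadj'
        · right
          exact B0 (Function.update c i w) i hc' hi'
        · rcases hN r' hr' hadj' with rfl | hw'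
          · left; exact ⟨i, hi'⟩
          · right
            exact capture G hS _ r' hc' hr' ⟨i, Or.inr (by rw [hi']; exact hw')⟩
    · rw [fne r hrx] at hi
      exact capture G hS c r hc hr ⟨i, hi⟩
  let S' : Set ((Fin k → V) × V) := {p | ∀ r ∈ A, f r = p.2 → (p.1, r) ∈ S}
  have hS' : Closed G k (A \ {x}) S' := by
    intro c ρ hc hρ ⟨c', hc', hmv, hone, hcase⟩ r hr hfr
    change f r = ρ at hfr
    refine hS c r (fun i => (hc i).1) hr ⟨c', fun i => (hc' i).1, hmv, hone, Or.inr ?_⟩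
    intro r' hr' hmove
    have hf := F r hr r' hr' hmove
    rcases hcase with ⟨i, hi⟩ | hcase
    · right
      refine B' c' r' (fun i => (hc' i).1) hr' ⟨i, ?_⟩
      rw [hi, ← hfr]
      rcases hf with hf | hf
      · exact Or.inl hf.symm
      · exact Or.inr hf
    · rcases hcase (f r') (fmem r' hr') (by rw [← hfr]; exact hf) with ⟨i, hi⟩ | hin
      · right
        exact B' c' r' (fun i => (hc' i).1) hr' ⟨i, Or.inl hi⟩
      · right
        exact hin r' hr' rfl
  rcases hwin S' hS' (f r) (fmem r hr) with ⟨i, hi⟩ | hin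
  · right
    exact B' c₀ r (fun i => (hc₀ i).1) hr ⟨i, Or.inl hi⟩
  · right
    exact hin r hr rfl

/-! ### Modular graphs -/

section

variable {G : SimpleGraph V}

theorem adj_iff (u v : V) : G.Adj u v ↔ G.dist u v = 1 := SimpleGraph.dist_eq_one_iff_adj.symm

variable (hG : G.Connected)
include hG

theorem down (b x : V) (n : ℕ) (h : G.dist b x = n + 1) :
    ∃ y, G.Adj x y ∧ G.dist b y = n := by
  obtain ⟨p, hp⟩ := hG.exists_walk_length_eq_dist x b
  rw [SimpleGraph.dist_comm, h] at hp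
  cases p with
  | nil => simp at hp
  | @cons _ y _ hxy q =>
    refine ⟨y, hxy, ?_⟩
    simp only [SimpleGraph.Walk.length_cons, Nat.add_right_cancel_iff] at hp
    have h1 : G.dist y b ≤ n := hp ▸ SimpleGraph.dist_le q
    have h2 := hG.dist_triangle (u := x) (v := y) (w := b)
    have h3 : G.dist x y = 1 := (adj_iff x y).mp hxy
    have h4 : G.dist x b = n + 1 := by rw [SimpleGraph.dist_comm]; exact h
    rw [SimpleGraph.dist_comm (u := b)]
    omega

variable (hM : IsModular G)
include hM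

theorem par (x u v : V) (h : G.Adj u v) : G.dist x u ≠ G.dist x v := by
  obtain ⟨m, h1, h2, h3⟩ := hM u v x
  have huv : G.dist u v = 1 := (adj_iff u v).mp h
  rw [SimpleGraph.dist_comm (u := x) (v := u), SimpleGraph.dist_comm (u := x) (v := v)]
  rw [huv] at h1
  have h4 : G.dist u m = 0 ∨ G.dist m v = 0 := by omega
  rcases h4 with h4 | h4
  · rw [hG.dist_eq_zero_iff] at h4
    subst h4
    rw [SimpleGraph.dist_comm (u := v) (v := u), huv] at h2
    omega
  · rw [hG.dist_eq_zero_iff] at h4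
    subst h4
    rw [huv] at h3
    omega

theorem par' (x u v : V) (h : G.Adj u v) :
    G.dist x u = G.dist x v + 1 ∨ G.dist x v = G.dist x u + 1 := by
  have h0 := par hG hM x u v h
  have huv : G.dist u v = 1 := (adj_iff u v).mp h
  have h1 := hG.dist_triangle (u := x) (v := u) (w := v)
  have h2 := hG.dist_triangle (u := x) (v := v) (w := u)
  rw [SimpleGraph.dist_comm (u := v) (v := u)] at h2
  omega

/-- Two vertices on the same level with a common neighbour are at distance two. -/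
theorem dist_two (x y z : V) (hne : y ≠ z) (hy : G.Adj x y) (hz : G.Adj x z) :
    G.dist y z = 2 := by
  have h1 : G.dist x y = 1 := (adj_iff x y).mp hy
  have h2 : G.dist x z = 1 := (adj_iff x z).mp hz
  have h3 := hG.dist_triangle (u := y) (v := x) (w := z)
  rw [SimpleGraph.dist_comm (u := y) (v := x)] at h3
  have h4 : G.dist y z ≠ 0 := fun h => hne (hG.dist_eq_zero_iff.mp h)
  have h5 : G.dist y z ≠ 1 := fun h => by
    have := par hG hM x y z ((adj_iff y z).mpr h)
    omega
  omega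

theorem quad (b x y z : V) (n : ℕ) (hne : y ≠ z) (hy : G.Adj x y) (hz : G.Adj x z)
    (hby : G.dist b y = n) (hbz : G.dist b z = n) :
    ∃ w, G.Adj w y ∧ G.Adj w z ∧ G.dist b w + 1 = n := by
  have hyz := dist_two hG hM x y z hne hy hz
  obtain ⟨m, h1, h2, h3⟩ := hM y z b
  rw [SimpleGraph.dist_comm (u := z) (v := b), hbz, SimpleGraph.dist_comm (u := z) (v := m)] at h2
  rw [SimpleGraph.dist_comm (u := y) (v := b), hby] at h3
  rw [hyz] at h1
  refine ⟨m, ?_, ?_, ?_⟩
  · rw [adj_iff, SimpleGraph.dist_comm]; omega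
  · rw [adj_iff]; omega
  · rw [SimpleGraph.dist_comm (u := b)]; omega

end

/-! ### The cube -/

theorem cube_sep : ∀ a b : (Bool × Bool) × Bool, (∀ c, cube3.Adj a c ↔ cube3.Adj b c) → a = b := by
  unfold cube3
  simp only [SimpleGraph.boxProd_adj, SimpleGraph.top_adj]
  decide

theorem cube_emb (G : SimpleGraph V) (u y1 y2 y3 w1 w2 w3 z : V)
    (a1 : G.Adj u y1) (a2 : G.Adj u y2) (a3 : G.Adj u y3)
    (b1 : G.Adj y1 w1) (b2 : G.Adj y1 w2) (b3 : G.Adj y2 w1) (b4 : G.Adj y2 w3)
    (b5 : G.Adj y3 w2) (b6 : G.Adj y3 w3)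
    (c1 : G.Adj w1 z) (c2 : G.Adj w2 z) (c3 : G.Adj w3 z)
    (n1 : ¬ G.Adj y1 w3) (n2 : ¬ G.Adj y2 w2) (n3 : ¬ G.Adj y3 w1)
    (L : V → ℕ) (n : ℕ) (hL : ∀ a b, G.Adj a b → L a = L b + 1 ∨ L b = L a + 1)
    (lu : L u = n + 3) (l1 : L y1 = n + 2) (l2 : L y2 = n + 2) (l3 : L y3 = n + 2)
    (m1 : L w1 = n + 1) (m2 : L w2 = n + 1) (m3 : L w3 = n + 1) (lz : L z = n) :
    Nonempty (cube3 ↪g G) := by
  have hno : ∀ a b, L a ≠ L b + 1 → L b ≠ L a + 1 → ¬ G.Adj a b := by
    intro a b h1 h2 h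
    rcases hL a b h with h | h
    · exact h1 h
    · exact h2 h
  have a1' := a1.symm
  have a2' := a2.symm
  have a3' := a3.symm
  have b1' := b1.symm
  have b2' := b2.symm
  have b3' := b3.symm
  have b4' := b4.symm
  have b5' := b5.symm
  have b6' := b6.symm
  have c1' := c1.symm
  have c2' := c2.symm
  have c3' := c3.symm
  have n1' : ¬ G.Adj w3 y1 := fun h => n1 h.symm
  have n2' : ¬ G.Adj w2 y2 := fun h => n2 h.symm
  have n3' : ¬ G.Adj w1 y3 := fun h => n3 h.symm
  let f : (Bool × Bool) × Bool → V := fun p =>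
    match p with
    | ((false, false), false) => u
    | ((true, false), false) => y1
    | ((false, true), false) => y2
    | ((false, false), true) => y3
    | ((true, true), false) => w1
    | ((true, false), true) => w2
    | ((false, true), true) => w3
    | ((true, true), true) => z
  have key : ∀ a b, G.Adj (f a) (f b) ↔ cube3.Adj a b := by
    rintro ⟨⟨p1, p2⟩, p3⟩ ⟨⟨q1, q2⟩, q3⟩
    unfold cube3
    simp only [SimpleGraph.boxProd_adj, SimpleGraph.top_adj]
    cases p1 <;> cases p2 <;> cases p3 <;> cases q1 <;> cases q2 <;> cases q3 <;>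
      dsimp only [f] <;>
      first
        | exact iff_of_true (by assumption) (by decide)
        | exact iff_of_false (by assumption) (by decide)
        | exact iff_of_false (hno _ _ (by omega) (by omega)) (by decide)
  have hinj : Function.Injective f := by
    intro a b hab
    apply cube_sep
    intro c
    rw [← key a c, ← key b c, hab]
  exact ⟨⟨⟨f, hinj⟩, fun {a b} => key a b⟩⟩

/-- In a modular graph without induced cubes all lower neighbours of a vertex have a common
lower neighbour. -/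
theorem helly [Fintype V] (G : SimpleGraph V) (hG : G.Connected) (hM : IsModular G)
    (hcube : IsEmpty (cube3 ↪g G)) (b : V) :
    ∀ n : ℕ, ∀ u : V, G.dist b u = n + 2 → ∀ Y : Finset V, Y.Nonempty →
      (∀ y ∈ Y, G.Adj u y ∧ G.dist b y = n + 1) → ∃ w, G.dist b w = n ∧ ∀ y ∈ Y, G.Adj w y := by
  classical
  intro n
  induction n with
  | zero =>
    intro u hu Y hY hYu
    refine ⟨b, SimpleGraph.dist_self, fun y hy => ?_⟩
    rw [adj_iff]; exact (hYu y hy).2
  | succ k ih =>
    intro u hu Y hY hYu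
    by_contra hcon
    push Not at hcon
    obtain ⟨y0, hy0⟩ := hY
    obtain ⟨w0, -, hw0⟩ := down hG b y0 (k + 1) (hYu y0 hy0).2
    obtain ⟨w, hwW, hwmax⟩ := Finset.exists_max_image
      (Finset.univ.filter fun v => G.dist b v = k + 1)
      (fun v => (Y.filter fun y => G.Adj v y).card) ⟨w0, by simpa using hw0⟩
    have hw : G.dist b w = k + 1 := by simpa using hwW
    obtain ⟨y3, hy3, hn3⟩ := hcon w hw
    obtain ⟨v0, hv0a, hv0⟩ := down hG b y3 (k + 1) (hYu y3 hy3).2
    obtain ⟨w2, hw2W, hw2max⟩ := Finset.exists_max_image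
      (Finset.univ.filter fun v => G.dist b v = k + 1 ∧ G.Adj v y3)
      (fun v => (Y.filter fun y => G.Adj w y ∧ G.Adj v y).card)
      ⟨v0, by simpa using ⟨hv0, hv0a.symm⟩⟩
    have hw2 : G.dist b w2 = k + 1 ∧ G.Adj w2 y3 := by simpa using hw2W
    have hy2 : ∃ y2 ∈ Y, G.Adj w y2 ∧ ¬ G.Adj w2 y2 := by
      by_contra hc
      push Not at hc
      have hlt : (Y.filter fun y => G.Adj w y).card < (Y.filter fun y => G.Adj w2 y).card := by
        apply Finset.card_lt_card
        rw [Finset.ssubset_iff_of_subset]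
        · exact ⟨y3, by simp [hy3, hw2.2], by simp [hn3]⟩
        · intro y hy
          rw [Finset.mem_filter] at hy ⊢
          exact ⟨hy.1, hc y hy.1 hy.2⟩
      have := hwmax w2 (by simp [hw2.1])
      omega
    obtain ⟨y2, hy2, hwy2, hnw2y2⟩ := hy2
    have h23 : y2 ≠ y3 := fun h => hn3 (h ▸ hwy2)
    obtain ⟨w3, hw3y2, hw3y3, hw3⟩ := quad hG hM b u y2 y3 (k + 2) h23 (hYu y2 hy2).1
      (hYu y3 hy3).1 (hYu y2 hy2).2 (hYu y3 hy3).2
    have hw3' : G.dist b w3 = k + 1 := by omega
    have hy1 : ∃ y1 ∈ Y, G.Adj w y1 ∧ G.Adj w2 y1 ∧ ¬ G.Adj w3 y1 := by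
      by_contra hc
      push Not at hc
      have hlt : (Y.filter fun y => G.Adj w y ∧ G.Adj w2 y).card <
          (Y.filter fun y => G.Adj w y ∧ G.Adj w3 y).card := by
        apply Finset.card_lt_card
        rw [Finset.ssubset_iff_of_subset]
        · exact ⟨y2, by simp [hy2, hwy2, hw3y2], by simp [hnw2y2]⟩
        · intro y hy
          rw [Finset.mem_filter] at hy ⊢
          exact ⟨hy.1, hy.2.1, hc y hy.1 hy.2.1 hy.2.2⟩
      have := hw2max w3 (by simp [hw3', hw3y3])
      omega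
    obtain ⟨y1, hy1, hwy1, hw2y1, hnw3y1⟩ := hy1
    have hww2 : w ≠ w2 := fun h => hn3 (h ▸ hw2.2)
    have hww3 : w ≠ w3 := fun h => hn3 (h ▸ hw3y3)
    have hw2w3 : w2 ≠ w3 := fun h => hnw2y2 (h ▸ hw3y2)
    have d12 := dist_two hG hM y1 w w2 hww2 hwy1.symm hw2y1.symm
    have d13 := dist_two hG hM y2 w w3 hww3 hwy2.symm hw3y2.symm
    have d23 := dist_two hG hM y3 w2 w3 hw2w3 hw2.2.symm hw3y3.symm
    obtain ⟨m, e1, e2, e3⟩ := hM w w2 w3
    rw [d12, SimpleGraph.dist_comm (u := m) (v := w2)] at e1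
    rw [d23, SimpleGraph.dist_comm (u := m) (v := w3)] at e2
    rw [d13, SimpleGraph.dist_comm (u := m) (v := w3)] at e3
    have am1 : G.Adj w m := by rw [adj_iff]; omega
    have am2 : G.Adj w2 m := by rw [adj_iff]; omega
    have am3 : G.Adj w3 m := by rw [adj_iff]; omega
    have hz : ∃ z, G.dist b z = k ∧ G.Adj z w ∧ G.Adj z w2 ∧ G.Adj z w3 := by
      rcases par' hG hM b w m am1 with h | h
      · exact ⟨m, by omega, am1.symm, am2.symm, am3.symm⟩
      · obtain ⟨z, hz, hzw⟩ := ih m (by omega) {w, w2, w3} ⟨w, by simp⟩ (by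
          intro y hy
          simp only [Finset.mem_insert, Finset.mem_singleton] at hy
          rcases hy with rfl | rfl | rfl
          · exact ⟨am1.symm, hw⟩
          · exact ⟨am2.symm, hw2.1⟩
          · exact ⟨am3.symm, hw3'⟩)
        exact ⟨z, hz, hzw w (by simp), hzw w2 (by simp), hzw w3 (by simp)⟩
    obtain ⟨z, hz, zw, zw2, zw3⟩ := hz
    have := cube_emb G u y1 y2 y3 w w2 w3 z (hYu y1 hy1).1 (hYu y2 hy2).1 (hYu y3 hy3).1
      hwy1.symm hw2y1.symm hwy2.symm hw3y2.symm hw2.2.symm hw3y3.symm zw.symm zw2.symm zw3.symm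
      (fun h => hnw3y1 h.symm) (fun h => hnw2y2 h.symm) (fun h => hn3 h.symm)
      (fun v => G.dist b v) k (fun a c h => par' hG hM b a c h) hu (hYu y1 hy1).2
      (hYu y2 hy2).2 (hYu y3 hy3).2 hw hw2.1 hw3' hz
    exact hcube.false this.some

/-- `A` contains every vertex that is closer to `b` than some vertex of `A`. -/
def Lower (G : SimpleGraph V) (b : V) (A : Set V) : Prop :=
  b ∈ A ∧ ∀ u, u ∉ A → ∀ v ∈ A, G.dist b v ≤ G.dist b u

theorem main_ind [Fintype V] (G : SimpleGraph V) (hG : G.Connected)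
    (k : ℕ) (hk : 1 ≤ k) (b : V)
    (hdom : ∀ A : Set V, Lower G b A → ∀ x ∈ A, x ≠ b → (∀ v ∈ A, G.dist b v ≤ G.dist b x) →
      ∃ w ∈ A, w ≠ x ∧ (∀ y ∈ A, G.Adj x y → y = w ∨ G.Adj w y) ∧ (2 ≤ k ∨ G.Adj w x)) :
    ∀ n : ℕ, ∀ A : Set V, Lower G b A → A.ncard = n + 1 → WinOn G k A := by
  classical
  intro n
  induction n with
  | zero =>
    intro A hA hn
    obtain ⟨a, rfl⟩ := Set.ncard_eq_one.mp hn
    have hb : b = a := hA.1
    subst hb
    refine ⟨fun _ => b, fun _ => Set.mem_singleton b, fun S _ r hr => Or.inl ?_⟩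
    exact ⟨⟨0, by omega⟩, (Set.mem_singleton_iff.mp hr).symm⟩
  | succ n ih =>
    intro A hA hn
    have hfin : A.Finite := Set.toFinite A
    obtain ⟨x, hx, hmax⟩ := Set.exists_max_image A (fun v => G.dist b v) hfin ⟨b, hA.1⟩
    have hxb : x ≠ b := by
      rintro rfl
      have hsub : A ⊆ {x} := by
        intro v hv
        have := hmax v hv
        simp only [SimpleGraph.dist_self, Nat.le_zero] at this
        rw [hG.dist_eq_zero_iff] at this
        exact this.symm
      have := Set.ncard_le_ncard hsub (Set.finite_singleton x)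
      rw [Set.ncard_singleton] at this
      omega
    obtain ⟨w, hwA, hwx, hN, hk2⟩ := hdom A hA x hx hxb hmax
    -- potential
    let e : V → ℕ := fun v =>
      if G.dist b v + G.dist v x = G.dist b x then G.dist v x else G.dist b x + 1 + G.dist b v
    have he : ∀ v ∈ A, v ≠ x → ∃ v' ∈ A, G.Adj v v' ∧ e v' < e v := by
      intro v hv hvx
      by_cases hI : G.dist b v + G.dist v x = G.dist b x
      · have hpos : G.dist v x ≠ 0 := fun h => hvx (hG.dist_eq_zero_iff.mp h)
        obtain ⟨p, hp⟩ := Nat.exists_eq_succ_of_ne_zero hpos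
        obtain ⟨v', hv', hd⟩ := down hG x v p (by rw [SimpleGraph.dist_comm]; exact hp)
        rw [SimpleGraph.dist_comm] at hd
        have h1 := hG.dist_triangle (u := b) (v := v') (w := x)
        have h2 := hG.dist_triangle (u := b) (v := v) (w := v')
        have h3 : G.dist v v' = 1 := (adj_iff v v').mp hv'
        have hI' : G.dist b v' + G.dist v' x = G.dist b x := by omega
        refine ⟨v', ?_, hv', ?_⟩
        · by_contra hnA
          have h4 := hA.2 v' hnA x hx
          have h5 : G.dist v' x = 0 := by omega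
          rw [hG.dist_eq_zero_iff] at h5
          exact hnA (h5 ▸ hx)
        · simp only [e, hI, hI', if_true]
          omega
      · have hvb : G.dist b v ≠ 0 := by
          intro h
          rw [hG.dist_eq_zero_iff] at h
          subst h
          simp at hI
        obtain ⟨p, hp⟩ := Nat.exists_eq_succ_of_ne_zero hvb
        obtain ⟨v', hv', hd⟩ := down hG b v p hp
        refine ⟨v', ?_, hv', ?_⟩
        · by_contra hnA
          have h4 := hA.2 v' hnA v hv
          omega
        · simp only [e, hI, if_false]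
          split_ifs with hI'
          · omega
          · omega
    refine step G k A x w hk2 hx hwA hwx hN e he (ih (A \ {x}) ⟨⟨hA.1, fun h => hxb h.symm⟩, ?_⟩ ?_)
    · intro u hu v hv
      by_cases huA : u ∈ A
      · have hux : u = x := by
          by_contra h
          exact hu ⟨huA, h⟩
        rw [hux]; exact hmax v hv.1
      · exact hA.2 u huA v hv.1
    · rw [Set.ncard_sdiff_singleton_of_mem hx]
      omega

theorem win_of_dom [Fintype V] (G : SimpleGraph V) (hG : G.Connected)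
    (k : ℕ) (hk : 1 ≤ k) (b : V)
    (hdom : ∀ A : Set V, Lower G b A → ∀ x ∈ A, x ≠ b → (∀ v ∈ A, G.dist b v ≤ G.dist b x) →
      ∃ w ∈ A, w ≠ x ∧ (∀ y ∈ A, G.Adj x y → y = w ∨ G.Adj w y) ∧ (2 ≤ k ∨ G.Adj w x)) :
    LazyCopsWin G k := by
  apply winOn_univ
  have hcard : (Set.univ : Set V).ncard ≠ 0 := by
    haveI : Nonempty V := ⟨b⟩
    rw [Set.ncard_univ, Nat.card_eq_fintype_card]
    exact Fintype.card_ne_zero
  obtain ⟨n, hn⟩ := Nat.exists_eq_succ_of_ne_zero hcard
  exact main_ind G hG k hk b hdom n Set.univ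
    ⟨Set.mem_univ _, fun u hu => (hu (Set.mem_univ _)).elim⟩ hn

/-- The domination property for two cops. -/
theorem dom_two [Fintype V] (G : SimpleGraph V) (hG : G.Connected) (hM : IsModular G)
    (hcube : IsEmpty (cube3 ↪g G)) (b : V) (A : Set V) (hA : Lower G b A) (x : V) (hx : x ∈ A)
    (hxb : x ≠ b) (hmax : ∀ v ∈ A, G.dist b v ≤ G.dist b x) :
    ∃ w ∈ A, w ≠ x ∧ (∀ y ∈ A, G.Adj x y → y = w ∨ G.Adj w y) := by
  classical
  have hpos : G.dist b x ≠ 0 := fun h => hxb (hG.dist_eq_zero_iff.mp h).symm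
  obtain ⟨p, hp⟩ := Nat.exists_eq_succ_of_ne_zero hpos
  have hlev : ∀ y ∈ A, G.Adj x y → G.dist b y = p := by
    intro y hy hxy
    have h1 := hmax y hy
    rcases par' hG hM b x y hxy with h | h <;> omega
  cases p with
  | zero =>
    refine ⟨b, hA.1, fun h => hxb h.symm, fun y hy hxy => Or.inl ?_⟩
    have := hlev y hy hxy
    rw [hG.dist_eq_zero_iff] at this
    exact this.symm
  | succ n =>
    obtain ⟨y0, hy0, hd0⟩ := down hG b x (n + 1) hp
    have hy0A : y0 ∈ A := by
      by_contra h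
      have := hA.2 y0 h x hx
      omega
    obtain ⟨w, hw, hwY⟩ := helly G hG hM hcube b n x hp
      (Finset.univ.filter fun y => y ∈ A ∧ G.Adj x y) ⟨y0, by simp [hy0A, hy0]⟩ (by
        intro y hy
        simp only [Finset.mem_filter, Finset.mem_univ, true_and] at hy
        exact ⟨hy.2, hlev y hy.1 hy.2⟩)
    refine ⟨w, ?_, ?_, ?_⟩
    · by_contra h
      have := hA.2 w h x hx
      omega
    · rintro rfl
      omega
    · intro y hy hxy
      exact Or.inr (hwY y (by simp [hy, hxy]))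

theorem two_win [Fintype V] (G : SimpleGraph V) (hG : G.Connected) (hM : IsModular G)
    (hcube : IsEmpty (cube3 ↪g G)) : LazyCopsWin G 2 := by
  classical
  obtain ⟨b⟩ := hG.nonempty
  refine win_of_dom G hG 2 (by norm_num) b ?_
  intro A hA x hx hxb hmax
  obtain ⟨w, h1, h2, h3⟩ := dom_two G hG hM hcube b A hA x hx hxb hmax
  exact ⟨w, h1, h2, h3, Or.inl le_rfl⟩

/-! ### One cop -/

theorem one_win [Fintype V] (G : SimpleGraph V) (hG : G.Connected) (hM : IsModular G)
    (hac : G.IsAcyclic) : LazyCopsWin G 1 := by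
  classical
  obtain ⟨b⟩ := hG.nonempty
  refine win_of_dom G hG 1 le_rfl b ?_
  intro A hA x hx hxb hmax
  have hpos : G.dist b x ≠ 0 := fun h => hxb (hG.dist_eq_zero_iff.mp h).symm
  obtain ⟨p, hp⟩ := Nat.exists_eq_succ_of_ne_zero hpos
  have hlev : ∀ y ∈ A, G.Adj x y → G.dist b y = p := by
    intro y hy hxy
    have h1 := hmax y hy
    rcases par' hG hM b x y hxy with h | h <;> omega
  obtain ⟨y0, hy0, hd0⟩ := down hG b x p hp
  have hy0A : y0 ∈ A := by
    by_contra h
    have := hA.2 y0 h x hx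
    omega
  refine ⟨y0, hy0A, hy0.ne', ?_, Or.inr hy0.symm⟩
  intro y hy hxy
  left
  by_contra hne
  obtain ⟨w, hwy, hwy0, hbw⟩ := quad hG hM b x y y0 p hne hxy hy0 (hlev y hy hxy) hd0
  have hxw : x ≠ w := by
    rintro rfl
    omega
  have P1 : (SimpleGraph.Walk.cons hxy (SimpleGraph.Walk.cons hwy.symm
      SimpleGraph.Walk.nil)).IsPath := by
    simp [SimpleGraph.Walk.cons_isPath_iff, hxy.ne, hxw, hwy.ne']
  have P2 : (SimpleGraph.Walk.cons hy0 (SimpleGraph.Walk.cons hwy0.symm
      SimpleGraph.Walk.nil)).IsPath := by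
    simp [SimpleGraph.Walk.cons_isPath_iff, hy0.ne, hxw, hwy0.ne']
  have := hac.path_unique ⟨_, P1⟩ ⟨_, P2⟩
  simp only [Subtype.mk.injEq, SimpleGraph.Walk.cons.injEq] at this
  exact hne this.1

theorem acyclic_of_one (G : SimpleGraph V)
    (htri : ∀ a b c, G.Adj a b → G.Adj b c → ¬ G.Adj a c) (h : LazyCopsWin G 1) :
    G.IsAcyclic := by
  classical
  intro v c hc
  have hnb : ∀ r ∈ c.support, ∃ a a', a ≠ a' ∧ a ∈ c.support ∧ a' ∈ c.support ∧
      G.Adj r a ∧ G.Adj r a' := by
    intro r hr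
    have h2 := hc.ncard_neighborSet_toSubgraph_eq_two hr
    rw [Set.ncard_eq_two] at h2
    obtain ⟨a, a', hne, hset⟩ := h2
    have ha : a ∈ c.toSubgraph.neighborSet r := by rw [hset]; simp
    have ha' : a' ∈ c.toSubgraph.neighborSet r := by rw [hset]; simp
    rw [SimpleGraph.Subgraph.mem_neighborSet] at ha ha'
    exact ⟨a, a', hne, c.mem_verts_toSubgraph.mp ha.snd_mem,
      c.mem_verts_toSubgraph.mp ha'.snd_mem, ha.adj_sub, ha'.adj_sub⟩
  obtain ⟨c0, hwin⟩ := h
  let S : Set ((Fin 1 → V) × V) :=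
    {p | ¬ (p.2 ∈ c.support ∧ p.1 0 ≠ p.2 ∧ ¬ G.Adj (p.1 0) p.2)}
  have hS := hwin S (by
    rintro q r ⟨q', hmv, -, hcase⟩ ⟨hr, hqr, hnadj⟩
    simp only at hr hqr hnadj
    have hne0 : q' 0 ≠ r := by
      intro h
      rcases hmv 0 with h1 | h1
      · exact hqr (h1 ▸ h)
      · exact hnadj (h ▸ h1)
    rcases hcase with ⟨i, hi⟩ | hcase
    · rw [Subsingleton.elim i 0] at hi
      exact hne0 hi
    · have hex : ∃ r', r' ∈ c.support ∧ (r' = r ∨ G.Adj r r') ∧ q' 0 ≠ r' ∧
          ¬ G.Adj (q' 0) r' := by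
        by_cases hadj : G.Adj (q' 0) r
        · obtain ⟨a, a', hne, ha, ha', hra, hra'⟩ := hnb r hr
          by_cases h0 : q' 0 = a
          · refine ⟨a', ha', Or.inr hra', fun h => hne (h0 ▸ h), htri _ _ _ hadj hra'⟩
          · exact ⟨a, ha, Or.inr hra, h0, htri _ _ _ hadj hra⟩
        · exact ⟨r, hr, Or.inl rfl, hne0, hadj⟩
      obtain ⟨r', hr', hmove, h1, h2⟩ := hex
      rcases hcase r' hmove with ⟨i, hi⟩ | hin
      · rw [Subsingleton.elim i 0] at hi
        exact h1 hi
      · exact hin ⟨hr', h1, h2⟩)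
  have key : ∀ r ∈ c.support, c0 0 = r ∨ G.Adj (c0 0) r := by
    intro r hr
    rcases hS r with ⟨i, hi⟩ | hin
    · rw [Subsingleton.elim i 0] at hi
      exact Or.inl hi
    · by_contra hcon
      push Not at hcon
      exact hin ⟨hr, hcon.1, hcon.2⟩
  have hex : ∃ r ∈ c.support, c0 0 ≠ r := by
    obtain ⟨a, a', hne, ha, ha', hra, hra'⟩ := hnb v c.start_mem_support
    by_cases h0 : c0 0 = a
    · exact ⟨a', ha', fun h => hne (h0 ▸ h)⟩
    · exact ⟨a, ha, h0⟩
  obtain ⟨r, hr, hne⟩ := hex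
  have hadj : G.Adj (c0 0) r := (key r hr).resolve_left hne
  obtain ⟨a, a', hne', ha, ha', hra, hra'⟩ := hnb r hr
  by_cases h0 : c0 0 = a
  · have h0' : c0 0 ≠ a' := fun h => hne' (h0 ▸ h)
    exact htri _ _ _ hadj hra' ((key a' ha').resolve_left h0')
  · exact htri _ _ _ hadj hra ((key a ha).resolve_left h0)

/-- Two lazy cops win on every finite modular graph without induced 3-cubes, and one lazy cop
wins exactly when the graph is a tree. -/
theorem result (V : Type) [Fintype V] (G : SimpleGraph V) (hG : G.Connected)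
    (hM : IsModular G) (hcube : IsEmpty (cube3 ↪g G)) :
    LazyCopsWin G 2 ∧ (LazyCopsWin G 1 ↔ G.IsTree) := by
  refine ⟨two_win G hG hM hcube, fun h => ⟨hG, acyclic_of_one G ?_ h⟩,
    fun h => one_win G hG hM h.IsAcyclic⟩
  intro a b c hab hbc hac
  exact par hG hM b a c hac (by
    rw [SimpleGraph.dist_comm, (adj_iff a b).mp hab, (adj_iff b c).mp hbc])

end Pool.Agent.Results.MP_085289_co.CubeFreeMedian
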